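import Mathlib

/-!
# Kobayashi chains and strongly pseudoconvex domains
-/

set_option autoImplicit false

open Metric Set Filter Topology

namespace Q72.KCh

/-- `ℂⁿ` -/
abbrev Cn (n : ℕ) := EuclideanSpace ℂ (Fin n)

/-- `|(a - b) / (1 - ā b)|` -/
noncomputable def pm (a b : ℂ) : ℝ := ‖(a - b) / (1 - (starRingEnd ℂ) a * b)‖

/-- The Poincaré distance `tanh⁻¹ |(a - b) / (1 - ā b)|`, where
`tanh⁻¹ m = (1/2) log ((1 + m) / (1 - m))`. -/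
noncomputable def pd (a b : ℂ) : ℝ := 1 / 2 * Real.log ((1 + pm a b) / (1 - pm a b))

/-- `IsChain Ω m z w s`: there is a Kobayashi chain of `m` discs from `z` to `w` in `Ω` of
length `s`: points `z = p₀, p₁, …, p_m = w`, holomorphic maps `f_j : 𝔻 → Ω` and points
`a_j, b_j ∈ 𝔻` with `f_j (a_j) = p_j`, `f_j (b_j) = p_{j+1}` (`0 ≤ j < m`) and
`s = ∑ ρ(a_j, b_j)`. -/
def IsChain {n : ℕ} (Ω : Set (Cn n)) (m : ℕ) (z w : Cn n) (s : ℝ) : Prop :=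
  ∃ (p : ℕ → Cn n) (f : ℕ → ℂ → Cn n) (a b : ℕ → ℂ), p 0 = z ∧ p m = w ∧
    (∀ j < m, ‖a j‖ < 1 ∧ ‖b j‖ < 1 ∧ DifferentiableOn ℂ (f j) (ball 0 1) ∧
      MapsTo (f j) (ball 0 1) Ω ∧ f j (a j) = p j ∧ f j (b j) = p (j + 1)) ∧
    s = ∑ j ∈ Finset.range m, pd (a j) (b j)

/-- The Kobayashi distance: the infimum of the lengths of all chains. -/
noncomputable def kob {n : ℕ} (Ω : Set (Cn n)) (z w : Cn n) : ℝ :=
  sInf {s : ℝ | ∃ m : ℕ, IsChain Ω m z w s}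

/-- The Levi form of `r` at `z` in the direction `ξ`:
`∑ ∂²r/∂z_j∂z̄_k (z) ξ_j ξ̄_k`, i.e. one quarter of the Laplacian at `0` of `ζ ↦ r(z + ζ ξ)`. -/
noncomputable def Lev {n : ℕ} (r : Cn n → ℝ) (z ξ : Cn n) : ℝ :=
  (1 / 4) * Laplacian.laplacian (fun ζ : ℂ => r (z + ζ • ξ)) 0

/-- `Ω` is a bounded domain with `C²` boundary that is strongly pseudoconvex: there is a `C²`
defining function `r` (`Ω = {r < 0}`, `dr ≠ 0` on `∂Ω`) whose Levi form is positive definite on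
the complex tangent space `{ξ : dr(ξ) = dr(iξ) = 0}` at every boundary point. -/
def IsStronglyPseudoconvex {n : ℕ} (Ω : Set (Cn n)) : Prop :=
  IsOpen Ω ∧ IsConnected Ω ∧ Bornology.IsBounded Ω ∧
    ∃ r : Cn n → ℝ, ContDiff ℝ 2 r ∧ Ω = {z | r z < 0} ∧
      ∀ z ∈ frontier Ω, fderiv ℝ r z ≠ 0 ∧
        ∀ ξ : Cn n, ξ ≠ 0 → fderiv ℝ r z ξ = 0 → fderiv ℝ r z (Complex.I • ξ) = 0 →
          0 < Lev r z ξ

end Q72.KCh
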