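import Mathlib
import Pool.Agent.Q72.KCh.Defs
import Pool.Agent.Q72.Sub.Lap

/-!
# Strongly pseudoconvex domains defined by homogeneous holomorphic functions
-/

set_option autoImplicit false

open Metric Set Filter Topology Laplacian InnerProductSpace

namespace Q72.KCh

variable {n : ℕ} {A : Type*} [Fintype A]

/-- `∑ |g_α|² - 1` -/
noncomputable def rho (g : A → Cn n → ℂ) (z : Cn n) : ℝ := ∑ α, ‖g α z‖ ^ 2 - 1

lemma laplacian_finsum (s : Finset A) {h : A → ℂ → ℂ} (hh : ∀ α, Differentiable ℂ (h α)) (x : ℂ) :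
    laplacian (fun ζ => ∑ α ∈ s, ‖h α ζ‖ ^ 2) x = ∑ α ∈ s, 4 * ‖deriv (h α) x‖ ^ 2 := by
  classical
  have hcd : ∀ α, ContDiff ℝ 2 (fun ζ => ‖h α ζ‖ ^ 2) := fun α =>
    (contDiff_norm_sq ℝ).comp ((hh α).contDiff.restrict_scalars ℝ)
  induction s using Finset.induction_on with
  | empty => simp
  | insert a s ha ih =>
    have e : (fun ζ => ∑ α ∈ insert a s, ‖h α ζ‖ ^ 2) =
        (fun ζ => ‖h a ζ‖ ^ 2) + fun ζ => ∑ α ∈ s, ‖h α ζ‖ ^ 2 := by
      ext ζ
      rw [Finset.sum_insert ha]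
      rfl
    have hs : ContDiff ℝ 2 (fun ζ => ∑ α ∈ s, ‖h α ζ‖ ^ 2) :=
      ContDiff.sum fun α _ => hcd α
    rw [e, (hcd a).contDiffAt.laplacian_add hs.contDiffAt, ih, Finset.sum_insert ha,
      Q72.Sub.laplacian_normSq_hol (hh a)]

lemma lev_rho {g : A → Cn n → ℂ} (hg : ∀ α, Differentiable ℂ (g α)) (z ξ : Cn n) :
    Lev (rho g) z ξ = ∑ α, ‖deriv (fun ζ : ℂ => g α (z + ζ • ξ)) 0‖ ^ 2 := by
  unfold Lev
  have hh : ∀ α, Differentiable ℂ (fun ζ : ℂ => g α (z + ζ • ξ)) := fun α =>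
    (hg α).comp (by fun_prop)
  have hcd : ContDiff ℝ 2 (fun ζ : ℂ => ∑ α, ‖g α (z + ζ • ξ)‖ ^ 2) :=
    ContDiff.sum fun α _ => (contDiff_norm_sq ℝ).comp ((hh α).contDiff.restrict_scalars ℝ)
  have e : (fun ζ : ℂ => rho g (z + ζ • ξ)) =
      (fun ζ : ℂ => ∑ α, ‖g α (z + ζ • ξ)‖ ^ 2) + fun _ => (-1 : ℝ) := by
    ext ζ
    simp [rho, sub_eq_add_neg]
  have hc : ContDiffAt ℝ 2 (fun _ : ℂ => (-1 : ℝ)) 0 := contDiffAt_const
  rw [e, hcd.contDiffAt.laplacian_add hc, laplacian_finsum Finset.univ hh]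
  simp only [laplacian_const, Pi.zero_apply, add_zero]
  rw [← Finset.mul_sum]
  ring

/-- the general statement -/
theorem isStronglyPseudoconvex_rho {g : A → Cn n → ℂ} (hg : ∀ α, ContDiff ℂ 2 (g α))
    {d : A → ℕ} (hd : ∀ α, 1 ≤ d α)
    (hom : ∀ (α : A) (t : ℝ) (z : Cn n), g α (t • z) = (t : ℂ) ^ d α * g α z)
    (ι : Fin n → A) {c : ℝ} (hc : 0 < c) (hι : ∀ (l : Fin n) (z : Cn n), g (ι l) z = c * z l) :
    IsStronglyPseudoconvex {z | rho g z < 0} := by
  have hdiff : ∀ α, Differentiable ℂ (g α) := fun α => (hg α).differentiable (by norm_num)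
  have hcd : ContDiff ℝ 2 (rho g) := by
    unfold rho
    apply ContDiff.sub _ contDiff_const
    apply ContDiff.sum
    intro α _
    exact (contDiff_norm_sq ℝ).comp ((hg α).restrict_scalars ℝ)
  have hcont : Continuous (rho g) := hcd.continuous
  have h0 : rho g 0 < 0 := by
    have : ∀ α, g α 0 = 0 := by
      intro α
      have := hom α 0 0
      rw [smul_zero, Complex.ofReal_zero, zero_pow (by have := hd α; omega), zero_mul] at this
      exact this
    simp [rho, this]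
  have hscale : ∀ (t : ℝ) (z : Cn n), rho g (t • z) = ∑ α, t ^ (2 * d α) * ‖g α z‖ ^ 2 - 1 := by
    intro t z
    unfold rho
    congr 1
    apply Finset.sum_congr rfl
    intro α _
    rw [hom, norm_mul, norm_pow, mul_pow, Complex.norm_real, Real.norm_eq_abs, ← pow_mul,
      mul_comm (d α) 2, pow_mul, sq_abs, ← pow_mul]
  have hmono : ∀ (t : ℝ) (z : Cn n), 0 ≤ t → t ≤ 1 → rho g (t • z) ≤ rho g z := by
    intro t z ht0 ht1
    rw [hscale]
    unfold rho
    apply sub_le_sub_right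
    apply Finset.sum_le_sum
    intro α _
    have h1 : t ^ (2 * d α) ≤ 1 := pow_le_one₀ ht0 ht1
    nlinarith [sq_nonneg ‖g α z‖]
  have hbdd : ∀ z ∈ {z | rho g z < 0}, ∀ l : Fin n, ‖z l‖ ≤ c⁻¹ := by
    intro z hz l
    have h1 : ‖g (ι l) z‖ ^ 2 ≤ ∑ α, ‖g α z‖ ^ 2 :=
      Finset.single_le_sum (fun α _ => sq_nonneg ‖g α z‖) (Finset.mem_univ (ι l))
    have h2 : rho g z < 0 := hz
    unfold rho at h2
    rw [hι, norm_mul, Complex.norm_real, Real.norm_of_nonneg hc.le] at h1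
    have h3 : (c * ‖z l‖) ^ 2 < 1 ^ 2 := by linarith
    have h4 := lt_of_pow_lt_pow_left₀ 2 zero_le_one h3
    rw [← one_div, le_div_iff₀ hc]
    linarith
  refine ⟨isOpen_lt hcont continuous_const, ?_, ?_, rho g, hcd, rfl, ?_⟩
  · -- connected
    refine ⟨⟨0, h0⟩, ?_⟩
    apply isPreconnected_of_forall (0 : Cn n)
    intro y hy
    refine ⟨(fun t : ℝ => t • y) '' Icc 0 1, ?_, ⟨0, by simp, by simp⟩, ⟨1, by simp, by simp⟩,
      isPreconnected_Icc.image _ (by fun_prop)⟩
    rintro _ ⟨t, ht, rfl⟩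
    exact lt_of_le_of_lt (hmono t y ht.1 ht.2) hy
  · -- bounded
    rw [isBounded_iff_forall_norm_le]
    refine ⟨√(∑ _l : Fin n, (c⁻¹) ^ 2), fun z hz => ?_⟩
    rw [EuclideanSpace.norm_eq]
    apply Real.sqrt_le_sqrt
    apply Finset.sum_le_sum
    intro l _
    exact pow_le_pow_left₀ (norm_nonneg _) (hbdd z hz l) 2
  · -- gradient and Levi form
    intro z hz
    have hz0 : rho g z = 0 := by
      have := frontier_lt_subset_eq hcont continuous_const hz
      exact this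
    constructor
    · intro hfd
      have h1 : HasDerivAt (fun t : ℝ => t • z) z 1 := by
        simpa using (hasDerivAt_id (1 : ℝ)).smul_const z
      have h2 : HasFDerivAt (rho g) (fderiv ℝ (rho g) z) ((1 : ℝ) • z) := by
        rw [one_smul]
        exact (hcd.differentiable (by norm_num) z).hasFDerivAt
      have h3 := h2.comp_hasDerivAt (1 : ℝ) h1
      rw [hfd] at h3
      have h4 : HasDerivAt (fun t : ℝ => ∑ α, t ^ (2 * d α) * ‖g α z‖ ^ 2 - 1)
          (∑ α, (((2 * d α : ℕ) : ℝ) * 1 ^ (2 * d α - 1)) * ‖g α z‖ ^ 2) 1 := by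
        apply HasDerivAt.sub_const
        apply HasDerivAt.fun_sum
        intro α _
        exact (hasDerivAt_pow (2 * d α) (1 : ℝ)).mul_const _
      have h5 : (rho g ∘ fun t : ℝ => t • z) =
          fun t : ℝ => ∑ α, t ^ (2 * d α) * ‖g α z‖ ^ 2 - 1 := by
        ext t
        exact hscale t z
      rw [h5] at h3
      have h6 := h3.unique h4
      simp only [zero_apply, one_pow, mul_one] at h6
      have h7 : ∑ α, ‖g α z‖ ^ 2 ≤ ∑ α, ((2 * d α : ℕ) : ℝ) * ‖g α z‖ ^ 2 := by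
        apply Finset.sum_le_sum
        intro α _
        have : (1 : ℝ) ≤ ((2 * d α : ℕ) : ℝ) := by
          have := hd α
          exact_mod_cast (by omega : 1 ≤ 2 * d α)
        nlinarith [sq_nonneg ‖g α z‖]
      unfold rho at hz0
      linarith
    · intro ξ hξ _ _
      rw [lev_rho hdiff]
      obtain ⟨l, hl⟩ : ∃ l, ξ l ≠ 0 := by
        by_contra hcon
        push Not at hcon
        apply hξ
        ext l
        simpa using hcon l
      apply Finset.sum_pos'
      · intro α _; positivity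
      · refine ⟨ι l, Finset.mem_univ _, ?_⟩
        have e : (fun ζ : ℂ => g (ι l) (z + ζ • ξ)) = fun ζ : ℂ => c * (z l + ζ * ξ l) := by
          ext ζ
          rw [hι]
          simp
        rw [e]
        have h1 : HasDerivAt (fun ζ : ℂ => (c : ℂ) * (z l + ζ * ξ l)) (c * ξ l) 0 := by
          have := (((hasDerivAt_id (0 : ℂ)).mul_const (ξ l)).const_add (z l)).const_mul (c : ℂ)
          simpa using this
        rw [h1.deriv]
        have : (c : ℂ) * ξ l ≠ 0 := mul_ne_zero (by exact_mod_cast hc.ne') hl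
        positivity

end Q72.KCh
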