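import Mathlib
import Pool.Agent.Q72.Psh.Approx

/-!
# A Harnack inequality for `log |y|` and discs in the thin cross `{|x y| ≤ ε}`
-/

set_option autoImplicit false

open Metric Set Filter Topology Q72.Psh

namespace Q72.KCh

/-- the Poisson kernel on the unit circle -/
noncomputable def PK (b ζ : ℂ) : ℝ := ((ζ + b) / (ζ - b)).re

lemma continuousOn_PK {b : ℂ} (hb : ‖b‖ < 1) : ContinuousOn (PK b) (sphere 0 1) := by
  unfold PK
  apply Complex.continuous_re.comp_continuousOn
  apply ContinuousOn.div (by fun_prop) (by fun_prop)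
  intro ζ hζ h
  rw [mem_sphere_zero_iff_norm] at hζ
  rw [sub_eq_zero] at h
  rw [h] at hζ
  linarith

lemma avg_PK {p : ℂ → ℂ} (hp : Differentiable ℂ p) {b : ℂ} (hb : ‖b‖ < 1) :
    Real.circleAverage (fun ζ => PK b ζ * (p ζ).re) 0 1 = (p b).re := by
  have h1 := DiffContOnCl.circleAverage_re_herglotzRieszKernel_smul' (f := p) (c := 0) (R := 1)
    (w := b) hp.diffContOnCl (by simpa using hb)
  simp only [sub_zero] at h1
  have hc : ContinuousOn (fun z : ℂ => ((z + b) / (z - b)).re • p z) (sphere 0 1) :=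
    (continuousOn_PK hb).smul hp.continuous.continuousOn
  have h2 := Complex.reCLM.circleAverage_comp_comm
    (f := fun z : ℂ => ((z + b) / (z - b)).re • p z) (c := 0) (R := 1)
    (hc.circleIntegrable zero_le_one)
  rw [h1] at h2
  rw [Complex.reCLM_apply] at h2
  rw [← h2]
  apply Real.circleAverage_congr_sphere
  intro ζ _
  simp [PK, Function.comp]

lemma le_PK {b ζ : ℂ} (hb : ‖b‖ < 1) (hζ : ‖ζ‖ = 1) : (1 - ‖b‖) / (1 + ‖b‖) ≤ PK b ζ := by
  have := le_re_herglotzRieszKernel (R := 1) (w := b) (c := 0) (z := ζ) (by simpa using hζ)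
    (by simpa using hb)
  simpa [PK] using this

/-- Harnack inequality -/
theorem harnack {y : ℂ → ℂ} (hy : DiffContOnCl ℂ y (ball 0 1)) {h : ℂ → ℝ}
    (hh : ContinuousOn h (sphere 0 1)) (h0 : ∀ ζ : ℂ, ‖ζ‖ = 1 → h ζ ≤ 0)
    (hle : ∀ ζ : ℂ, ‖ζ‖ = 1 → ‖y ζ‖ ≤ Real.exp (h ζ)) {t : ℝ} (ht : t < 1) {b : ℂ}
    (hb : ‖b‖ ≤ t) :
    ‖y b‖ ≤ Real.exp ((1 - t) / (1 + t) * Real.circleAverage h 0 1) := by
  have hb1 : ‖b‖ < 1 := by linarith
  have hb0 := norm_nonneg b
  have havg0 : Real.circleAverage h 0 1 ≤ 0 := by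
    apply Real.circleAverage_mono_on_of_le_circle (hh.circleIntegrable zero_le_one)
    intro ζ hζ
    rw [abs_one, mem_sphere_zero_iff_norm] at hζ
    exact h0 ζ hζ
  have key : ∀ δ : ℝ, 0 < δ →
      ‖y b‖ ≤ Real.exp ((1 - t) / (1 + t) * Real.circleAverage h 0 1 + 2 * δ) := by
    intro δ hδ
    obtain ⟨p, hp, hph⟩ := approx hh hδ
    have hpc := hp.continuous
    -- maximum modulus
    have h1 : ‖y b * Complex.exp (-(p b))‖ ≤ Real.exp δ := by
      apply Complex.norm_le_of_forall_mem_frontier_norm_le (U := ball (0 : ℂ) 1) isBounded_ball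
        (f := fun ζ => y ζ * Complex.exp (-(p ζ)))
      · exact hy.smul (Differentiable.diffContOnCl (by fun_prop))
      · intro ζ hζ
        rw [frontier_ball _ one_ne_zero, mem_sphere_zero_iff_norm] at hζ
        rw [norm_mul, Complex.norm_exp, Complex.neg_re]
        have h2 := hle ζ hζ
        have h3 := (abs_lt.1 (hph ζ (by simpa using hζ))).2
        calc ‖y ζ‖ * Real.exp (-(p ζ).re) ≤ Real.exp (h ζ) * Real.exp (-(p ζ).re) :=
              mul_le_mul_of_nonneg_right h2 (Real.exp_pos _).le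
          _ = Real.exp (h ζ + -(p ζ).re) := (Real.exp_add _ _).symm
          _ ≤ Real.exp δ := Real.exp_le_exp.2 (by linarith)
      · exact subset_closure (by simpa using hb1)
    rw [norm_mul, Complex.norm_exp, Complex.neg_re] at h1
    have h2 : ‖y b‖ ≤ Real.exp ((p b).re + δ) := by
      have h3 := mul_le_mul_of_nonneg_right h1 (Real.exp_pos (p b).re).le
      rw [mul_assoc, ← Real.exp_add, neg_add_cancel, Real.exp_zero, mul_one, ← Real.exp_add] at h3
      rwa [add_comm]
    -- Poisson formula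
    have hPc := continuousOn_PK hb1
    have h3 : (p b).re ≤ (1 - t) / (1 + t) * Real.circleAverage h 0 1 + δ := by
      rw [← avg_PK hp hb1]
      have e1 : Real.circleAverage (fun ζ => PK b ζ * (δ + (p ζ - p ζ).re)) 0 1 = δ := by
        have := avg_PK (p := fun _ => ((δ : ℝ) : ℂ)) (differentiable_const _) hb1
        simpa using this
      have e1' : Real.circleAverage (fun ζ => PK b ζ * δ) 0 1 = δ := by simpa using e1
      have i1 : CircleIntegrable (fun ζ => (1 - t) / (1 + t) * h ζ) 0 1 :=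
        (continuousOn_const.mul hh).circleIntegrable zero_le_one
      have i2 : CircleIntegrable (fun ζ => PK b ζ * δ) 0 1 :=
        (hPc.mul continuousOn_const).circleIntegrable zero_le_one
      have e2 : Real.circleAverage (fun ζ => (1 - t) / (1 + t) * h ζ + PK b ζ * δ) 0 1 =
          (1 - t) / (1 + t) * Real.circleAverage h 0 1 + δ := by
        rw [Real.circleAverage_fun_add i1 i2, e1']
        congr 1
        exact Real.circleAverage_smul (a := (1 - t) / (1 + t)) (f := h) (c := 0) (R := 1)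
      rw [← e2]
      apply Real.circleAverage_mono
      · exact (hPc.mul (by fun_prop)).circleIntegrable zero_le_one
      · exact ((continuousOn_const.mul hh).add
          (hPc.mul continuousOn_const)).circleIntegrable zero_le_one
      · intro ζ hζ
        rw [abs_one, mem_sphere_zero_iff_norm] at hζ
        have k1 := le_PK hb1 hζ
        have k2 := (abs_lt.1 (hph ζ (by simpa using hζ))).1
        have k3 := h0 ζ hζ
        have k4 : (1 - t) / (1 + t) ≤ (1 - ‖b‖) / (1 + ‖b‖) := by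
          rw [div_le_div_iff₀ (by linarith) (by linarith)]
          nlinarith
        have k5 : 0 ≤ PK b ζ := by
          refine le_trans ?_ k1
          apply div_nonneg <;> linarith
        have k6 : PK b ζ * (p ζ).re ≤ PK b ζ * (h ζ + δ) :=
          mul_le_mul_of_nonneg_left (by linarith) k5
        have k7 : PK b ζ * h ζ ≤ (1 - t) / (1 + t) * h ζ :=
          mul_le_mul_of_nonpos_right (k4.trans k1) k3
        linarith
    refine h2.trans (Real.exp_le_exp.2 ?_)
    linarith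
  -- let `δ → 0`
  have hlim : Tendsto (fun δ : ℝ => Real.exp ((1 - t) / (1 + t) * Real.circleAverage h 0 1 +
      2 * δ)) (𝓝[>] 0) (𝓝 (Real.exp ((1 - t) / (1 + t) * Real.circleAverage h 0 1 + 2 * 0))) := by
    have : Continuous fun δ : ℝ => Real.exp ((1 - t) / (1 + t) * Real.circleAverage h 0 1 +
      2 * δ) := by fun_prop
    exact (this.tendsto 0).mono_left nhdsWithin_le_nhds
  rw [mul_zero, add_zero] at hlim
  apply ge_of_tendsto hlim
  filter_upwards [self_mem_nhdsWithin] with δ hδ using key δ hδ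

/-- **discs in the thin cross** -/
theorem cross {x y : ℂ → ℂ} (hx : DifferentiableOn ℂ x (ball 0 1))
    (hy : DifferentiableOn ℂ y (ball 0 1)) {ε : ℝ} (hε : 0 < ε) (hε1 : ε ≤ 1)
    (h1 : ∀ ζ : ℂ, ‖ζ‖ < 1 → ‖x ζ‖ ≤ 1) (h2 : ∀ ζ : ℂ, ‖ζ‖ < 1 → ‖y ζ‖ ≤ 1)
    (h3 : ∀ ζ : ℂ, ‖ζ‖ < 1 → ‖x ζ * y ζ‖ ≤ ε) {R t : ℝ} (hR0 : 0 < R) (hR : R < 1)
    (ht0 : 0 ≤ t) (ht : t < 1) :
    (∀ b : ℂ, ‖b‖ ≤ t * R → ‖x b‖ ≤ Real.exp ((1 - t) / (1 + t) * (Real.log ε / 2))) ∨
    (∀ b : ℂ, ‖b‖ ≤ t * R → ‖y b‖ ≤ Real.exp ((1 - t) / (1 + t) * (Real.log ε / 2))) := by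
  set X : ℂ → ℂ := fun ζ => x (R * ζ) with hX
  set Y : ℂ → ℂ := fun ζ => y (R * ζ) with hY
  have hmap : ∀ ζ : ℂ, ‖ζ‖ ≤ 1 → ‖(R : ℂ) * ζ‖ < 1 := by
    intro ζ hζ
    rw [norm_mul, Complex.norm_real, Real.norm_of_nonneg hR0.le]
    nlinarith
  have hmaps : MapsTo (fun ζ : ℂ => (R : ℂ) * ζ) (closedBall 0 1) (ball 0 1) := fun ζ hζ => by
    have := hmap ζ (by simpa using hζ)
    simpa using this
  have hXd : DiffContOnCl ℂ X (ball 0 1) := by
    have h : DifferentiableOn ℂ X (closedBall 0 1) := hx.comp (by fun_prop) hmaps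
    exact ⟨h.mono ball_subset_closedBall, by rw [closure_ball _ one_ne_zero]; exact h.continuousOn⟩
  have hYd : DiffContOnCl ℂ Y (ball 0 1) := by
    have h : DifferentiableOn ℂ Y (closedBall 0 1) := hy.comp (by fun_prop) hmaps
    exact ⟨h.mono ball_subset_closedBall, by rw [closure_ball _ one_ne_zero]; exact h.continuousOn⟩
  have hcl : closure (ball (0 : ℂ) 1) = closedBall 0 1 := closure_ball _ one_ne_zero
  set hx' : ℂ → ℝ := fun ζ => Real.log (max ‖X ζ‖ ε) with hhx
  set hy' : ℂ → ℝ := fun ζ => Real.log (max ‖Y ζ‖ ε) with hhy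
  have hpos : ∀ a : ℝ, 0 < max a ε := fun a => lt_max_of_lt_right hε
  have hXc : ContinuousOn hx' (sphere 0 1) := by
    apply ContinuousOn.log
    · exact (hXd.continuousOn.norm.sup continuousOn_const).mono
        (by rw [hcl]; exact sphere_subset_closedBall)
    · intro ζ _; exact (hpos _).ne'
  have hYc : ContinuousOn hy' (sphere 0 1) := by
    apply ContinuousOn.log
    · exact (hYd.continuousOn.norm.sup continuousOn_const).mono
        (by rw [hcl]; exact sphere_subset_closedBall)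
    · intro ζ _; exact (hpos _).ne'
  have hX0 : ∀ ζ : ℂ, ‖ζ‖ = 1 → hx' ζ ≤ 0 := fun ζ hζ =>
    Real.log_nonpos (hpos _).le (max_le (h1 _ (hmap ζ hζ.le)) hε1)
  have hY0 : ∀ ζ : ℂ, ‖ζ‖ = 1 → hy' ζ ≤ 0 := fun ζ hζ =>
    Real.log_nonpos (hpos _).le (max_le (h2 _ (hmap ζ hζ.le)) hε1)
  have hXe : ∀ ζ : ℂ, ‖ζ‖ = 1 → ‖X ζ‖ ≤ Real.exp (hx' ζ) := fun ζ hζ => by
    rw [hhx]; simp only; rw [Real.exp_log (hpos _)]; exact le_max_left _ _
  have hYe : ∀ ζ : ℂ, ‖ζ‖ = 1 → ‖Y ζ‖ ≤ Real.exp (hy' ζ) := fun ζ hζ => by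
    rw [hhy]; simp only; rw [Real.exp_log (hpos _)]; exact le_max_left _ _
  have hsum : Real.circleAverage hx' 0 1 + Real.circleAverage hy' 0 1 ≤ Real.log ε := by
    rw [← Real.circleAverage_fun_add (hXc.circleIntegrable zero_le_one)
      (hYc.circleIntegrable zero_le_one)]
    apply Real.circleAverage_mono_on_of_le_circle
      ((hXc.add hYc).circleIntegrable zero_le_one)
    intro ζ hζ
    rw [abs_one, mem_sphere_zero_iff_norm] at hζ
    have k1 := hX0 ζ hζ
    have k2 := hY0 ζ hζ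
    show hx' ζ + hy' ζ ≤ Real.log ε
    simp only [hhx, hhy] at k1 k2 ⊢
    rcases le_total ‖X ζ‖ ε with h | h
    · rw [max_eq_right h] at k1 ⊢
      linarith
    · rcases le_total ‖Y ζ‖ ε with h' | h'
      · rw [max_eq_right h'] at k2 ⊢
        linarith
      · rw [max_eq_left h, max_eq_left h', ← Real.log_mul (by linarith) (by linarith), ← norm_mul]
        apply Real.log_le_log
        · rw [norm_mul]; nlinarith
        · exact h3 _ (hmap ζ hζ.le)
  have hct : 0 ≤ (1 - t) / (1 + t) := div_nonneg (by linarith) (by linarith)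
  have scale : ∀ b : ℂ, ‖b‖ ≤ t * R → ‖((R : ℂ)⁻¹ * b)‖ ≤ t ∧ (R : ℂ) * ((R : ℂ)⁻¹ * b) = b := by
    intro b hb
    constructor
    · rw [norm_mul, norm_inv, Complex.norm_real, Real.norm_of_nonneg hR0.le,
        inv_mul_le_iff₀ hR0]
      linarith
    · rw [← mul_assoc, mul_inv_cancel₀ (by exact_mod_cast hR0.ne'), one_mul]
  rcases le_total (Real.circleAverage hx' 0 1) (Real.log ε / 2) with h | h
  · left
    intro b hb
    obtain ⟨s1, s2⟩ := scale b hb
    have := harnack hXd hXc hX0 hXe ht s1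
    simp only [hX, s2] at this
    refine this.trans (Real.exp_le_exp.2 ?_)
    exact mul_le_mul_of_nonneg_left h hct
  · right
    intro b hb
    obtain ⟨s1, s2⟩ := scale b hb
    have := harnack hYd hYc hY0 hYe ht s1
    simp only [hY, s2] at this
    refine this.trans (Real.exp_le_exp.2 ?_)
    exact mul_le_mul_of_nonneg_left (by linarith) hct

end Q72.KCh
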