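import Mathlib
import Pool.Agent.Q72.KCh.Defs

/-!
# The Poincaré distance: Schwarz–Pick and a triangle inequality
-/

set_option autoImplicit false

open Metric Set Filter Topology

namespace Q72.KCh

/-- `tanh⁻¹` -/
noncomputable def F (m : ℝ) : ℝ := 1 / 2 * Real.log ((1 + m) / (1 - m))

lemma pd_eq (a b : ℂ) : pd a b = F (pm a b) := rfl

lemma F_mono {x y : ℝ} (h0 : 0 ≤ x) (h : x ≤ y) (hy : y < 1) : F x ≤ F y := by
  unfold F
  apply mul_le_mul_of_nonneg_left _ (by norm_num)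
  apply Real.log_le_log
  · have : 0 < 1 - x := by linarith
    positivity
  · rw [div_le_div_iff₀ (by linarith) (by linarith)]
    nlinarith

lemma F_zero : F 0 = 0 := by simp [F]

lemma F_nonneg {x : ℝ} (h0 : 0 ≤ x) (h1 : x < 1) : 0 ≤ F x := by
  rw [← F_zero]; exact F_mono le_rfl h0 h1

lemma F_sub {x y : ℝ} (hx : -1 < x) (hx1 : x < 1) (hy0 : -1 < y) (hy : y < 1) :
    F ((x - y) / (1 - x * y)) = F x - F y := by
  unfold F
  have h1 : 0 < 1 - x * y := by nlinarith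
  have e : (1 + (x - y) / (1 - x * y)) / (1 - (x - y) / (1 - x * y)) =
      ((1 + x) / (1 - x)) / ((1 + y) / (1 - y)) := by
    have h2 : 1 - (x - y) / (1 - x * y) = ((1 - x) * (1 + y)) / (1 - x * y) := by
      field_simp; ring
    have h3 : 1 + (x - y) / (1 - x * y) = ((1 + x) * (1 - y)) / (1 - x * y) := by
      field_simp; ring
    rw [h2, h3]
    have : 1 - x ≠ 0 := by linarith
    have : 1 + y ≠ 0 := by linarith
    have : 1 - y ≠ 0 := by linarith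
    field_simp
  rw [e, Real.log_div (by apply ne_of_gt; apply div_pos <;> linarith)
    (by apply ne_of_gt; apply div_pos <;> linarith)]
  ring

lemma one_sub_conj_mul_ne {a b : ℂ} (ha : ‖a‖ < 1) (hb : ‖b‖ < 1) :
    1 - (starRingEnd ℂ) a * b ≠ 0 := by
  intro h
  have h1 : (starRingEnd ℂ) a * b = 1 := by linear_combination -h
  have h2 : ‖(starRingEnd ℂ) a * b‖ = 1 := by rw [h1, norm_one]
  rw [norm_mul, RCLike.norm_conj] at h2
  nlinarith [norm_nonneg a, norm_nonneg b]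

lemma pm_nonneg (a b : ℂ) : 0 ≤ pm a b := norm_nonneg _

lemma normSq_identity (a b : ℂ) :
    ‖1 - (starRingEnd ℂ) a * b‖ ^ 2 - ‖a - b‖ ^ 2 = (1 - ‖a‖ ^ 2) * (1 - ‖b‖ ^ 2) := by
  simp only [Complex.sq_norm, Complex.normSq_apply, Complex.sub_re, Complex.sub_im, Complex.one_re,
    Complex.one_im, Complex.mul_re, Complex.mul_im, Complex.conj_re, Complex.conj_im]
  ring

lemma pm_lt_one {a b : ℂ} (ha : ‖a‖ < 1) (hb : ‖b‖ < 1) : pm a b < 1 := by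
  unfold pm
  rw [norm_div, div_lt_one (norm_pos_iff.2 (one_sub_conj_mul_ne ha hb))]
  have h := normSq_identity a b
  have h1 : 0 < (1 - ‖a‖ ^ 2) * (1 - ‖b‖ ^ 2) := by
    apply mul_pos <;> nlinarith [norm_nonneg a, norm_nonneg b]
  exact lt_of_pow_lt_pow_left₀ 2 (norm_nonneg _) (by linarith)

lemma pd_nonneg {a b : ℂ} (ha : ‖a‖ < 1) (hb : ‖b‖ < 1) : 0 ≤ pd a b :=
  F_nonneg (pm_nonneg _ _) (pm_lt_one ha hb)

/-- `m(a, b) ≥ (|a| - |b|) / (1 - |a| |b|)` -/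
lemma le_pm {a b : ℂ} (ha : ‖a‖ < 1) (hb : ‖b‖ < 1) (hab : ‖b‖ ≤ ‖a‖) :
    (‖a‖ - ‖b‖) / (1 - ‖a‖ * ‖b‖) ≤ pm a b := by
  have ha0 := norm_nonneg a
  have hb0 := norm_nonneg b
  have h1 : 0 < 1 - ‖a‖ * ‖b‖ := by nlinarith
  have h2 : 0 < ‖1 - (starRingEnd ℂ) a * b‖ := norm_pos_iff.2 (one_sub_conj_mul_ne ha hb)
  unfold pm
  rw [norm_div, div_le_div_iff₀ h1 h2]
  apply le_of_sq_le_sq _ (by positivity)
  have h3 := normSq_identity a b
  have h4 : 1 - ‖a‖ * ‖b‖ ≤ ‖1 - (starRingEnd ℂ) a * b‖ := by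
    have := norm_sub_norm_le (1 : ℂ) ((starRingEnd ℂ) a * b)
    rw [norm_one, norm_mul, RCLike.norm_conj] at this
    exact this
  have h5 : (1 - ‖a‖ * ‖b‖) ^ 2 ≤ ‖1 - (starRingEnd ℂ) a * b‖ ^ 2 :=
    pow_le_pow_left₀ h1.le h4 2
  have h6 : 0 ≤ (1 - ‖a‖ ^ 2) * (1 - ‖b‖ ^ 2) := by
    apply mul_nonneg <;> nlinarith
  have h7 : (1 - ‖a‖ * ‖b‖) ^ 2 - (‖a‖ - ‖b‖) ^ 2 = (1 - ‖a‖ ^ 2) * (1 - ‖b‖ ^ 2) := by ring
  have h8 : ‖a - b‖ ^ 2 = ‖1 - (starRingEnd ℂ) a * b‖ ^ 2 - (1 - ‖a‖ ^ 2) * (1 - ‖b‖ ^ 2) := by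
    linarith
  have h9 : (‖a‖ - ‖b‖) ^ 2 = (1 - ‖a‖ * ‖b‖) ^ 2 - (1 - ‖a‖ ^ 2) * (1 - ‖b‖ ^ 2) := by linarith
  rw [mul_pow, mul_pow, h8, h9]
  nlinarith

/-- the triangle inequality needed below -/
lemma F_norm_sub_le {a b : ℂ} (ha : ‖a‖ < 1) (hb : ‖b‖ < 1) : F ‖a‖ - F ‖b‖ ≤ pd a b := by
  rcases le_total ‖b‖ ‖a‖ with h | h
  · have ha0 := norm_nonneg a
    have hb0 := norm_nonneg b
    have h1 : 0 < 1 - ‖a‖ * ‖b‖ := by nlinarith
    rw [← F_sub (by linarith) ha (by linarith) hb, pd_eq]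
    exact F_mono (div_nonneg (by linarith) h1.le) (le_pm ha hb h) (pm_lt_one ha hb)
  · have := F_mono (norm_nonneg a) h hb
    have := pd_nonneg ha hb
    linarith

lemma pm_comm (a b : ℂ) : pm a b = pm b a := by
  unfold pm
  rw [norm_div, norm_div, norm_sub_rev a b]
  congr 1
  rw [← RCLike.norm_conj]
  congr 1
  simp [mul_comm]

lemma pd_comm (a b : ℂ) : pd a b = pd b a := by rw [pd_eq, pd_eq, pm_comm]

/-- the automorphism `ζ ↦ (ζ + a) / (1 + ā ζ)` -/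
noncomputable def aut (a ζ : ℂ) : ℂ := (ζ + a) / (1 + (starRingEnd ℂ) a * ζ)

lemma aut_zero (a : ℂ) : aut a 0 = a := by simp [aut]

lemma one_add_conj_mul_ne {a b : ℂ} (ha : ‖a‖ < 1) (hb : ‖b‖ < 1) :
    1 + (starRingEnd ℂ) a * b ≠ 0 := by
  have := one_sub_conj_mul_ne (a := -a) (b := b) (by rwa [norm_neg]) hb
  simpa using this

lemma norm_aut {a ζ : ℂ} : ‖aut a ζ‖ = pm (-a) ζ := by
  unfold aut pm
  rw [norm_div, norm_div, map_neg, neg_mul, sub_neg_eq_add]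
  congr 1
  rw [← norm_neg]
  congr 1
  ring

lemma norm_aut_lt {a ζ : ℂ} (ha : ‖a‖ < 1) (hζ : ‖ζ‖ < 1) : ‖aut a ζ‖ < 1 := by
  rw [norm_aut]; exact pm_lt_one (by rwa [norm_neg]) hζ

lemma differentiableOn_aut {a : ℂ} (ha : ‖a‖ < 1) : DifferentiableOn ℂ (aut a) (ball 0 1) := by
  unfold aut
  apply DifferentiableOn.div (by fun_prop) (by fun_prop)
  intro ζ hζ
  exact one_add_conj_mul_ne ha (by simpa using hζ)

lemma aut_inv {a b : ℂ} (ha : ‖a‖ < 1) (hb : ‖b‖ < 1) : aut a (aut (-a) b) = b := by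
  unfold aut
  have h1 : 1 - (starRingEnd ℂ) a * b ≠ 0 := one_sub_conj_mul_ne ha hb
  have h2 : 1 - (starRingEnd ℂ) a * a ≠ 0 := one_sub_conj_mul_ne ha ha
  rw [map_neg, neg_mul, ← sub_eq_add_neg, ← sub_eq_add_neg]
  have e1 : (b - a) / (1 - (starRingEnd ℂ) a * b) + a =
      (b * (1 - (starRingEnd ℂ) a * a)) / (1 - (starRingEnd ℂ) a * b) := by
    rw [div_add' _ _ _ h1]
    congr 1
    ring
  have e2 : 1 + (starRingEnd ℂ) a * ((b - a) / (1 - (starRingEnd ℂ) a * b)) =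
      (1 - (starRingEnd ℂ) a * a) / (1 - (starRingEnd ℂ) a * b) := by
    rw [mul_div_assoc', add_comm, div_add' _ _ _ h1]
    congr 1
    ring
  rw [e1, e2, div_div_div_cancel_right₀ h1, mul_div_assoc, div_self h2, mul_one]

lemma norm_aut_neg (a b : ℂ) : ‖aut (-a) b‖ = pm a b := by rw [norm_aut, neg_neg]

/-- **Schwarz–Pick** -/
theorem pm_le {g : ℂ → ℂ} (hg : DifferentiableOn ℂ g (ball 0 1))
    (hm : MapsTo g (ball 0 1) (ball 0 1)) {a b : ℂ} (ha : ‖a‖ < 1) (hb : ‖b‖ < 1) :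
    pm (g a) (g b) ≤ pm a b := by
  have haB : a ∈ ball (0 : ℂ) 1 := by simpa using ha
  have hga : ‖g a‖ < 1 := by simpa using hm haB
  have hma : MapsTo (aut a) (ball 0 1) (ball 0 1) := fun ζ hζ => by
    have : ‖ζ‖ < 1 := by simpa using hζ
    simpa using norm_aut_lt ha this
  have hG : DifferentiableOn ℂ (fun ζ => aut (-(g a)) (g (aut a ζ))) (ball 0 1) :=
    (differentiableOn_aut (by rwa [norm_neg])).comp (hg.comp (differentiableOn_aut ha) hma)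
      (hm.comp hma)
  have hGm : MapsTo (fun ζ => aut (-(g a)) (g (aut a ζ))) (ball 0 1) (closedBall 0 1) := by
    intro ζ hζ
    have h1 : ‖g (aut a ζ)‖ < 1 := by simpa using hm (hma hζ)
    have := norm_aut_lt (a := -(g a)) (by rwa [norm_neg]) h1
    simpa using this.le
  have h0 : (fun ζ => aut (-(g a)) (g (aut a ζ))) 0 = 0 := by
    simp only [aut_zero]
    unfold aut
    simp
  have hz : ‖aut (-a) b‖ < 1 := norm_aut_lt (by rwa [norm_neg]) hb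
  have h2 := Complex.norm_le_norm_of_mapsTo_ball hG hGm h0 hz
  simp only [aut_inv ha hb] at h2
  rwa [norm_aut_neg, norm_aut_neg] at h2

theorem pd_le {g : ℂ → ℂ} (hg : DifferentiableOn ℂ g (ball 0 1))
    (hm : MapsTo g (ball 0 1) (ball 0 1)) {a b : ℂ} (ha : ‖a‖ < 1) (hb : ‖b‖ < 1) :
    pd (g a) (g b) ≤ pd a b :=
  F_mono (pm_nonneg _ _) (pm_le hg hm ha hb) (pm_lt_one ha hb)

/-- `pm a b ≤ t` when `pd a b ≤ F t` -/
lemma pm_le_of_pd_le {a b : ℂ} (ha : ‖a‖ < 1) (hb : ‖b‖ < 1) {t : ℝ} (ht0 : 0 ≤ t) (ht1 : t < 1)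
    (h : pd a b ≤ F t) : pm a b ≤ t := by
  by_contra hcon
  push Not at hcon
  have h1 := pm_lt_one ha hb
  rw [pd_eq] at h
  unfold F at h
  have h2 : Real.log ((1 + t) / (1 - t)) < Real.log ((1 + pm a b) / (1 - pm a b)) := by
    apply Real.log_lt_log
    · have : 0 < 1 - t := by linarith
      positivity
    · rw [div_lt_div_iff₀ (by linarith) (by linarith)]
      nlinarith
  linarith

end Q72.KCh
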