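import Mathlib
import Pool.Agent.Q72.KCh.Defs
import Pool.Agent.Q72.KCh.Poinc
import Pool.Agent.Q72.KCh.Harnack
import Pool.Agent.Q72.KCh.Dom

/-!
# `K` discs do not suffice
-/

set_option autoImplicit false

open Metric Set Filter Topology

namespace Q72.KCh

/-! ### the domain -/

/-- the defining functions -/
noncomputable def gg (K : ℕ) (c C : ℝ) (q : ℕ) :
    Fin (K + K) ⊕ Fin (K + K) ⊕ Fin K → Cn (K + K) → ℂ
  | Sum.inl l => fun z => c * z l
  | Sum.inr (Sum.inl l) => fun z => z l ^ q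
  | Sum.inr (Sum.inr i) => fun z => C * (z (Fin.castAdd K i) * z (Fin.natAdd K i))

/-- the degrees -/
def dd (K q : ℕ) : Fin (K + K) ⊕ Fin (K + K) ⊕ Fin K → ℕ
  | Sum.inl _ => 1
  | Sum.inr (Sum.inl _) => q
  | Sum.inr (Sum.inr _) => 2

/-- the domain -/
def Om (K : ℕ) (c C : ℝ) (q : ℕ) : Set (Cn (K + K)) := {z | rho (gg K c C q) z < 0}

lemma isSpc_Om (K : ℕ) {c C : ℝ} {q : ℕ} (hc : 0 < c) (hq : 1 ≤ q) :
    IsStronglyPseudoconvex (Om K c C q) := by
  apply isStronglyPseudoconvex_rho (g := gg K c C q) (d := dd K q) (ι := Sum.inl) (hc := hc)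
  · rintro (l | l | i)
    · exact contDiff_const.mul (by fun_prop)
    · show ContDiff ℂ 2 fun z : Cn (K + K) => z l ^ q
      fun_prop
    · show ContDiff ℂ 2 fun z : Cn (K + K) => (C : ℂ) * (z (Fin.castAdd K i) * z (Fin.natAdd K i))
      fun_prop
  · rintro (l | l | i)
    · exact le_rfl
    · exact hq
    · exact one_le_two
  · rintro (l | l | i) t z
    · simp only [gg, dd, PiLp.smul_apply, Complex.real_smul, pow_one]; ring
    · simp only [gg, dd, PiLp.smul_apply, Complex.real_smul, mul_pow]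
    · simp only [gg, dd, PiLp.smul_apply, Complex.real_smul]; ring
  · intro l z
    rfl

lemma rho_gg (K : ℕ) (c C : ℝ) (q : ℕ) (z : Cn (K + K)) :
    rho (gg K c C q) z = ∑ l, ‖(c : ℂ) * z l‖ ^ 2 + (∑ l, ‖z l ^ q‖ ^ 2 +
      ∑ i : Fin K, ‖(C : ℂ) * (z (Fin.castAdd K i) * z (Fin.natAdd K i))‖ ^ 2) - 1 := by
  unfold rho
  rw [Fintype.sum_sum_type, Fintype.sum_sum_type]
  rfl

lemma norm_lt_of_mem {K : ℕ} {c C : ℝ} {q : ℕ} (hq : 1 ≤ q) {z : Cn (K + K)}
    (hz : z ∈ Om K c C q) (l : Fin (K + K)) : ‖z l‖ < 1 := by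
  have h : rho (gg K c C q) z < 0 := hz
  rw [rho_gg] at h
  have h1 : 0 ≤ ∑ l, ‖(c : ℂ) * z l‖ ^ 2 := Finset.sum_nonneg fun _ _ => sq_nonneg _
  have h2 : 0 ≤ ∑ i : Fin K, ‖(C : ℂ) * (z (Fin.castAdd K i) * z (Fin.natAdd K i))‖ ^ 2 :=
    Finset.sum_nonneg fun _ _ => sq_nonneg _
  have h3 : ‖z l ^ q‖ ^ 2 ≤ ∑ l, ‖z l ^ q‖ ^ 2 :=
    Finset.single_le_sum (f := fun l => ‖z l ^ q‖ ^ 2) (fun _ _ => sq_nonneg _)
      (Finset.mem_univ l)
  rw [norm_pow, ← pow_mul] at h3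
  by_contra hcon
  push Not at hcon
  have : (1 : ℝ) ≤ ‖z l‖ ^ (q * 2) := one_le_pow₀ hcon
  linarith

lemma mul_le_of_mem {K : ℕ} {c C : ℝ} {q : ℕ} (hC : 0 < C) {z : Cn (K + K)}
    (hz : z ∈ Om K c C q) (i : Fin K) :
    ‖z (Fin.castAdd K i) * z (Fin.natAdd K i)‖ ≤ C⁻¹ := by
  have h : rho (gg K c C q) z < 0 := hz
  rw [rho_gg] at h
  have h1 : 0 ≤ ∑ l, ‖(c : ℂ) * z l‖ ^ 2 := Finset.sum_nonneg fun _ _ => sq_nonneg _
  have h2 : 0 ≤ ∑ l, ‖z l ^ q‖ ^ 2 := Finset.sum_nonneg fun _ _ => sq_nonneg _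
  have h3 : ‖(C : ℂ) * (z (Fin.castAdd K i) * z (Fin.natAdd K i))‖ ^ 2 ≤
      ∑ i : Fin K, ‖(C : ℂ) * (z (Fin.castAdd K i) * z (Fin.natAdd K i))‖ ^ 2 :=
    Finset.single_le_sum (f := fun i : Fin K => ‖(C : ℂ) * (z (Fin.castAdd K i) *
      z (Fin.natAdd K i))‖ ^ 2) (fun _ _ => sq_nonneg _) (Finset.mem_univ i)
  rw [norm_mul, Complex.norm_real, Real.norm_of_nonneg hC.le] at h3
  have h4 : (C * ‖z (Fin.castAdd K i) * z (Fin.natAdd K i)‖) ^ 2 < 1 ^ 2 := by linarith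
  have h5 := lt_of_pow_lt_pow_left₀ 2 zero_le_one h4
  rw [← one_div, le_div_iff₀ hC]
  linarith

lemma mem_Om {K : ℕ} {c C r : ℝ} {q : ℕ} (hr : 0 ≤ r) (hr1 : r ≤ 1)
    (hpar : (K + K : ℝ) * (c ^ 2 + r ^ (2 * q)) < 1) {z : Cn (K + K)}
    (h1 : ∀ l, ‖z l‖ ≤ r) (h2 : ∀ i : Fin K, z (Fin.castAdd K i) * z (Fin.natAdd K i) = 0) :
    z ∈ Om K c C q := by
  show rho (gg K c C q) z < 0
  rw [rho_gg]
  have e1 : ∑ l, ‖(c : ℂ) * z l‖ ^ 2 ≤ ∑ _l : Fin (K + K), c ^ 2 := by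
    apply Finset.sum_le_sum
    intro l _
    rw [norm_mul, mul_pow, Complex.norm_real, Real.norm_eq_abs, sq_abs]
    have h3 : ‖z l‖ ^ 2 ≤ 1 := pow_le_one₀ (norm_nonneg _) ((h1 l).trans hr1)
    nlinarith [sq_nonneg c]
  have e2 : ∑ l, ‖z l ^ q‖ ^ 2 ≤ ∑ _l : Fin (K + K), r ^ (2 * q) := by
    apply Finset.sum_le_sum
    intro l _
    rw [norm_pow, ← pow_mul, mul_comm q 2]
    exact pow_le_pow_left₀ (norm_nonneg _) (h1 l) _
  have e3 : ∑ i : Fin K, ‖(C : ℂ) * (z (Fin.castAdd K i) * z (Fin.natAdd K i))‖ ^ 2 = 0 := by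
    apply Finset.sum_eq_zero
    intro i _
    rw [h2, mul_zero, norm_zero]
    norm_num
  rw [Finset.sum_const, Finset.card_univ, Fintype.card_fin, nsmul_eq_mul] at e1 e2
  push_cast at e1 e2
  rw [e3]
  nlinarith

/-! ### the points `tanh (m L)` -/

/-- `(3^m - 1) / (3^m + 1)` -/
noncomputable def hh (m : ℕ) : ℝ := (3 ^ m - 1) / (3 ^ m + 1)

/-- the length `(1/2) log 3` -/
noncomputable def LL : ℝ := 1 / 2 * Real.log 3

lemma LL_pos : 0 < LL := by
  unfold LL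
  have := Real.log_pos (show (1 : ℝ) < 3 by norm_num)
  positivity

lemma hh_zero : hh 0 = 0 := by simp [hh]

lemma hh_one : hh 1 = 1 / 2 := by norm_num [hh]

lemma three_pow_ge (m : ℕ) : (1 : ℝ) ≤ 3 ^ m := one_le_pow₀ (by norm_num)

lemma hh_nonneg (m : ℕ) : 0 ≤ hh m := by
  unfold hh
  have := three_pow_ge m
  apply div_nonneg <;> linarith

lemma hh_lt (m : ℕ) : hh m < 1 := by
  unfold hh
  have := three_pow_ge m
  rw [div_lt_one (by linarith)]
  linarith

lemma hh_mono {m k : ℕ} (h : m ≤ k) : hh m ≤ hh k := by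
  unfold hh
  have h1 := three_pow_ge m
  have h2 : (3 : ℝ) ^ m ≤ 3 ^ k := pow_le_pow_right₀ (by norm_num) h
  rw [div_le_div_iff₀ (by linarith) (by linarith)]
  nlinarith

lemma F_hh (m : ℕ) : F (hh m) = m * LL := by
  unfold F hh LL
  have h1 := three_pow_ge m
  have e : (1 + ((3 : ℝ) ^ m - 1) / (3 ^ m + 1)) / (1 - (3 ^ m - 1) / (3 ^ m + 1)) = 3 ^ m := by
    have h2 : (3 : ℝ) ^ m + 1 ≠ 0 := by linarith
    field_simp
    ring
  rw [e, Real.log_pow]
  ring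

lemma hh_succ (m : ℕ) : (1 / 2 + hh m) / (1 + hh m * (1 / 2)) = hh (m + 1) := by
  unfold hh
  have h1 := three_pow_ge m
  have h2 : (3 : ℝ) ^ m + 1 ≠ 0 := by linarith
  have h3 : (3 : ℝ) ^ (m + 1) + 1 ≠ 0 := by have := three_pow_ge (m + 1); linarith
  have h4 : (1 : ℝ) + (3 ^ m - 1) / (3 ^ m + 1) * (1 / 2) ≠ 0 := by
    have : 0 ≤ ((3 : ℝ) ^ m - 1) / (3 ^ m + 1) := hh_nonneg m
    linarith
  rw [div_eq_div_iff h4 h3, pow_succ]
  field_simp
  ring

lemma hh_pred (m : ℕ) : (hh (m + 1) - 1 / 2) / (1 - hh (m + 1) * (1 / 2)) = hh m := by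
  unfold hh
  have h1 := three_pow_ge m
  have h2 : (3 : ℝ) ^ m + 1 ≠ 0 := by linarith
  have h3 : (3 : ℝ) ^ (m + 1) + 1 ≠ 0 := by have := three_pow_ge (m + 1); linarith
  have h4 : (1 : ℝ) - (3 ^ (m + 1) - 1) / (3 ^ (m + 1) + 1) * (1 / 2) ≠ 0 := by
    have : ((3 : ℝ) ^ (m + 1) - 1) / (3 ^ (m + 1) + 1) < 1 := hh_lt (m + 1)
    linarith
  rw [div_eq_div_iff h4 h2, pow_succ]
  rw [pow_succ] at h3
  field_simp
  ring

/-! ### the chain of `K + 1` discs -/

/-- the corner points -/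
noncomputable def pt (K : ℕ) (r : ℝ) (j : ℕ) : Cn (K + K) :=
  WithLp.toLp 2 (Fin.addCases
    (fun i : Fin K => if j ≤ (i : ℕ) then ((r * hh (i + 1 - j) : ℝ) : ℂ) else 0)
    (fun i : Fin K => if j ≤ (i : ℕ) then 0 else ((r * hh (j - (i + 1)) : ℝ) : ℂ)))

lemma pt_X (K : ℕ) (r : ℝ) (j : ℕ) (i : Fin K) : pt K r j (Fin.castAdd K i) =
    if j ≤ (i : ℕ) then ((r * hh (i + 1 - j) : ℝ) : ℂ) else 0 := by
  simp [pt]

lemma pt_Y (K : ℕ) (r : ℝ) (j : ℕ) (i : Fin K) : pt K r j (Fin.natAdd K i) =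
    if j ≤ (i : ℕ) then 0 else ((r * hh (j - (i + 1)) : ℝ) : ℂ) := by
  simp only [pt, Fin.addCases_right]

/-- the discs -/
noncomputable def ds (K : ℕ) (r : ℝ) (j : ℕ) (ζ : ℂ) : Cn (K + K) :=
  WithLp.toLp 2 (Fin.addCases
    (fun i : Fin K => if j ≤ (i : ℕ) then
      (r : ℂ) * (((hh (i + 1 - j) : ℝ) - ζ) / (1 - (hh (i + 1 - j) : ℝ) * ζ)) else 0)
    (fun i : Fin K => if j ≤ (i : ℕ) then 0 else
      (r : ℂ) * ((ζ + (hh (j - (i + 1)) : ℝ)) / (1 + (hh (j - (i + 1)) : ℝ) * ζ))))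

lemma ds_X (K : ℕ) (r : ℝ) (j : ℕ) (ζ : ℂ) (i : Fin K) : ds K r j ζ (Fin.castAdd K i) =
    if j ≤ (i : ℕ) then
      (r : ℂ) * (((hh (i + 1 - j) : ℝ) - ζ) / (1 - (hh (i + 1 - j) : ℝ) * ζ)) else 0 := by
  simp [ds]

lemma ds_Y (K : ℕ) (r : ℝ) (j : ℕ) (ζ : ℂ) (i : Fin K) : ds K r j ζ (Fin.natAdd K i) =
    if j ≤ (i : ℕ) then 0 else
      (r : ℂ) * ((ζ + (hh (j - (i + 1)) : ℝ)) / (1 + (hh (j - (i + 1)) : ℝ) * ζ)) := by
  simp only [ds, Fin.addCases_right]

lemma norm_real_hh (m : ℕ) : ‖((hh m : ℝ) : ℂ)‖ < 1 := by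
  rw [Complex.norm_real, Real.norm_of_nonneg (hh_nonneg m)]; exact hh_lt m

lemma ds_mem {K : ℕ} {c C r : ℝ} {q : ℕ} (hr : 0 ≤ r) (hr1 : r ≤ 1)
    (hpar : (K + K : ℝ) * (c ^ 2 + r ^ (2 * q)) < 1) (j : ℕ) {ζ : ℂ} (hζ : ‖ζ‖ < 1) :
    ds K r j ζ ∈ Om K c C q := by
  apply mem_Om hr hr1 hpar
  · intro l
    induction l using Fin.addCases with
    | left i =>
      rw [ds_X]
      split_ifs
      · rw [norm_mul, Complex.norm_real, Real.norm_of_nonneg hr]
        have h1 := pm_lt_one (norm_real_hh (i + 1 - j)) hζ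
        unfold pm at h1
        rw [Complex.conj_ofReal] at h1
        nlinarith
      · rw [norm_zero]; exact hr
    | right i =>
      rw [ds_Y]
      split_ifs
      · rw [norm_zero]; exact hr
      · rw [norm_mul, Complex.norm_real, Real.norm_of_nonneg hr]
        have h1 := norm_aut_lt (norm_real_hh (j - (i + 1))) hζ
        unfold aut at h1
        rw [Complex.conj_ofReal] at h1
        nlinarith
  · intro i
    rw [ds_X, ds_Y]
    split_ifs <;> simp

lemma ds_zero (K : ℕ) (r : ℝ) (j : ℕ) : ds K r j 0 = pt K r j := by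
  ext l
  induction l using Fin.addCases with
  | left i =>
    rw [ds_X, pt_X]
    split_ifs
    · push_cast
      simp
    · rfl
  | right i =>
    rw [ds_Y, pt_Y]
    split_ifs
    · rfl
    · push_cast
      simp

lemma ds_half (K : ℕ) (r : ℝ) (j : ℕ) : ds K r j (1 / 2) = pt K r (j + 1) := by
  ext l
  induction l using Fin.addCases with
  | left i =>
    rw [ds_X, pt_X]
    by_cases h1 : j ≤ (i : ℕ)
    · obtain ⟨m, hm⟩ : ∃ m, (i : ℕ) + 1 - j = m + 1 := ⟨i - j, by omega⟩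
      have h2 := hh_pred m
      have h3 : (((hh (m + 1) : ℝ) : ℂ) - 1 / 2) / (1 - (hh (m + 1) : ℝ) * (1 / 2)) =
          ((hh m : ℝ) : ℂ) := by
        rw [← h2]; push_cast; ring
      rw [if_pos h1, hm, h3]
      by_cases h4 : j + 1 ≤ (i : ℕ)
      · rw [if_pos h4, show (i : ℕ) + 1 - (j + 1) = m by omega]
        push_cast
        ring
      · rw [if_neg h4, show m = 0 by omega, hh_zero]
        simp
    · rw [if_neg h1, if_neg (by omega)]
  | right i =>
    rw [ds_Y, pt_Y]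
    by_cases h1 : j ≤ (i : ℕ)
    · rw [if_pos h1]
      by_cases h4 : j + 1 ≤ (i : ℕ)
      · rw [if_pos h4]
      · rw [if_neg h4, show j + 1 - ((i : ℕ) + 1) = 0 by omega, hh_zero]
        simp
    · rw [if_neg h1, if_neg (by omega)]
      have h2 := hh_succ (j - (i + 1))
      have h3 : ((1 / 2 : ℂ) + ((hh (j - (i + 1)) : ℝ) : ℂ)) /
          (1 + (hh (j - (i + 1)) : ℝ) * (1 / 2)) = ((hh (j - (i + 1) + 1) : ℝ) : ℂ) := by
        rw [← h2]; push_cast; ring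
      rw [h3, show j + 1 - ((i : ℕ) + 1) = j - (i + 1) + 1 by omega]
      push_cast
      ring

lemma ds_diff (K : ℕ) (r : ℝ) (j : ℕ) : DifferentiableOn ℂ (ds K r j) (ball 0 1) := by
  rw [differentiableOn_euclidean]
  intro l
  induction l using Fin.addCases with
  | left i =>
    simp only [ds_X]
    split_ifs
    · apply DifferentiableOn.const_mul
      apply DifferentiableOn.div (by fun_prop) (by fun_prop)
      intro ζ hζ
      have := one_sub_conj_mul_ne (norm_real_hh (i + 1 - j)) (b := ζ) (by simpa using hζ)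
      rwa [Complex.conj_ofReal] at this
    · exact differentiableOn_const _
  | right i =>
    simp only [ds_Y]
    split_ifs
    · exact differentiableOn_const _
    · apply DifferentiableOn.const_mul
      apply DifferentiableOn.div (by fun_prop) (by fun_prop)
      intro ζ hζ
      have := one_add_conj_mul_ne (norm_real_hh (j - (i + 1))) (b := ζ) (by simpa using hζ)
      rwa [Complex.conj_ofReal] at this

lemma pd_half : pd 0 (1 / 2) = LL := by
  have h1 : pm 0 (1 / 2) = hh 1 := by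
    rw [hh_one]
    simp [pm]
  rw [pd_eq, h1, F_hh]
  simp

theorem chain_upper {K : ℕ} {c C r : ℝ} {q : ℕ} (hr : 0 ≤ r) (hr1 : r ≤ 1)
    (hpar : (K + K : ℝ) * (c ^ 2 + r ^ (2 * q)) < 1) :
    IsChain (Om K c C q) (K + 1) (pt K r 0) (pt K r (K + 1)) ((K + 1) * LL) := by
  refine ⟨pt K r, ds K r, fun _ => 0, fun _ => 1 / 2, rfl, rfl, fun j _ => ?_, ?_⟩
  · refine ⟨by simp, by norm_num, ds_diff K r j, fun ζ hζ => ?_, ds_zero K r j, ds_half K r j⟩
    exact ds_mem hr hr1 hpar j (by simpa using hζ)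
  · simp only [pd_half, Finset.sum_const, Finset.card_range, nsmul_eq_mul]
    push_cast
    ring

/-! ### `K` discs are not enough -/

lemma chain_nonneg {n : ℕ} {Ω : Set (Cn n)} {m : ℕ} {z w : Cn n} {s : ℝ}
    (h : IsChain Ω m z w s) : 0 ≤ s := by
  obtain ⟨p, f, a, b, _, _, h3, rfl⟩ := h
  apply Finset.sum_nonneg
  intro j hj
  obtain ⟨h4, h5, _⟩ := h3 j (Finset.mem_range.1 hj)
  exact pd_nonneg h4 h5

/-- parameters -/
lemma exists_par (K : ℕ) : ∃ (c C r e : ℝ) (q : ℕ), 0 < c ∧ 1 ≤ C ∧ 1 / 2 < r ∧ r < 1 ∧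
    1 ≤ q ∧ (K + K : ℝ) * (c ^ 2 + r ^ (2 * q)) < 1 ∧
    (∀ m ∈ Finset.range (K + 1), (m : ℝ) * LL - LL / 8 ≤ F (r * hh m)) ∧
    0 < e ∧ e < 1 / 4 ∧ F e ≤ LL / 8 ∧
    Real.exp ((1 - hh (K + 1) / ((1 + hh (K + 1)) / 2)) / (1 + hh (K + 1) / ((1 + hh (K + 1)) / 2)) *
      (Real.log C⁻¹ / 2)) ≤ e := by
  -- `r`
  have hL := LL_pos
  have hFc : ∀ x : ℝ, 0 ≤ x → x < 1 → ContinuousAt F x := by
    intro x hx0 hx
    unfold F
    have h1 : (1 : ℝ) - x ≠ 0 := by linarith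
    have h2 : (1 + x) / (1 - x) ≠ 0 := by
      apply div_ne_zero <;> linarith
    fun_prop (disch := assumption)
  have hr1 : ∀ᶠ r : ℝ in 𝓝[<] 1, ∀ m ∈ Finset.range (K + 1),
      (m : ℝ) * LL - LL / 8 ≤ F (r * hh m) := by
    rw [Finset.eventually_all]
    intro m _
    have h1 : ContinuousAt (fun r : ℝ => F (r * hh m)) 1 := by
      have h2 : ContinuousAt F ((fun r : ℝ => r * hh m) 1) := by
        simp only [one_mul]
        exact hFc _ (hh_nonneg m) (hh_lt m)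
      exact h2.comp (f := fun r : ℝ => r * hh m) (by fun_prop)
    have h3 : (m : ℝ) * LL - LL / 8 < F (1 * hh m) := by
      rw [one_mul, F_hh]; linarith
    have h4 := h1.eventually (lt_mem_nhds h3)
    exact (h4.filter_mono nhdsWithin_le_nhds).mono fun r hr => hr.le
  have hr2 : ∀ᶠ r : ℝ in 𝓝[<] 1, r ∈ Ioo (1 / 2 : ℝ) 1 := Ioo_mem_nhdsLT (by norm_num)
  obtain ⟨r, hrm, hr⟩ := (hr1.and hr2).exists
  -- `q`
  have hq : ∃ q : ℕ, 1 ≤ q ∧ (K + K : ℝ) * r ^ (2 * q) < 1 / 2 := by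
    have h1 : Tendsto (fun q : ℕ => (K + K : ℝ) * r ^ (2 * q)) atTop (𝓝 ((K + K : ℝ) * 0)) := by
      apply Tendsto.const_mul
      have h2 : Tendsto (fun q : ℕ => (r ^ 2) ^ q) atTop (𝓝 0) :=
        tendsto_pow_atTop_nhds_zero_of_lt_one (by positivity) (by nlinarith [hr.1, hr.2])
      refine h2.congr fun q => ?_
      rw [pow_mul]
    rw [mul_zero] at h1
    have h2 := h1.eventually (gt_mem_nhds (show (0 : ℝ) < 1 / 2 by norm_num))
    obtain ⟨q, hq1, hq2⟩ := (h2.and (eventually_ge_atTop 1)).exists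
    exact ⟨q, hq2, hq1⟩
  obtain ⟨q, hq1, hq2⟩ := hq
  -- `c`
  have hc : (K + K : ℝ) * (1 / (2 * K + 2)) ^ 2 ≤ 1 / 2 := by
    have hK : (0 : ℝ) ≤ K := Nat.cast_nonneg K
    rw [div_pow, one_pow, mul_one_div, div_le_div_iff₀ (by positivity) (by norm_num)]
    nlinarith
  -- `e`
  have he : ∃ e : ℝ, 0 < e ∧ e < 1 / 4 ∧ F e ≤ LL / 8 := by
    have h1 := hFc 0 le_rfl one_pos
    have h2 : ∀ᶠ e : ℝ in 𝓝 0, F e < LL / 8 :=
      h1.eventually (gt_mem_nhds (show F 0 < LL / 8 by rw [F_zero]; positivity))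
    have h3 : ∀ᶠ e : ℝ in 𝓝[>] 0, F e < LL / 8 := h2.filter_mono nhdsWithin_le_nhds
    have h4 : ∀ᶠ e : ℝ in 𝓝[>] 0, e ∈ Ioo (0 : ℝ) (1 / 4) := Ioo_mem_nhdsGT (by norm_num)
    obtain ⟨e, he1, he2⟩ := (h3.and h4).exists
    exact ⟨e, he2.1, he2.2, he1.le⟩
  obtain ⟨e, he0, he1, he2⟩ := he
  -- `C`
  set κ : ℝ := (1 - hh (K + 1) / ((1 + hh (K + 1)) / 2)) /
    (1 + hh (K + 1) / ((1 + hh (K + 1)) / 2)) with hκ
  have hκ0 : 0 < κ := by
    have h1 := hh_nonneg (K + 1)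
    have h2 := hh_lt (K + 1)
    have h3 : hh (K + 1) / ((1 + hh (K + 1)) / 2) < 1 := by
      rw [div_lt_one (by linarith)]; linarith
    have h4 : 0 ≤ hh (K + 1) / ((1 + hh (K + 1)) / 2) := by positivity
    rw [hκ]
    apply div_pos <;> linarith
  have hC : ∃ C : ℝ, 1 ≤ C ∧ Real.exp (κ * (Real.log C⁻¹ / 2)) ≤ e := by
    refine ⟨max 1 (Real.exp (-(2 * Real.log e / κ))), le_max_left _ _, ?_⟩
    set C := max 1 (Real.exp (-(2 * Real.log e / κ))) with hCdef
    have h1 : -(2 * Real.log e / κ) ≤ Real.log C := by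
      rw [Real.le_log_iff_exp_le (lt_of_lt_of_le one_pos (le_max_left _ _))]
      exact le_max_right _ _
    rw [Real.log_inv]
    rw [← Real.exp_log he0]
    apply Real.exp_le_exp.2
    have h2 : κ * (-(2 * Real.log e / κ)) ≤ κ * Real.log C :=
      mul_le_mul_of_nonneg_left h1 hκ0.le
    have h3 : κ * (-(2 * Real.log e / κ)) = -(2 * Real.log e) := by field_simp
    rw [h3] at h2
    linarith
  obtain ⟨C, hC1, hC2⟩ := hC
  exact ⟨1 / (2 * K + 2), C, r, e, q, by positivity, hC1, hr.1, hr.2, hq1, by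
    rw [mul_add]; linarith, hrm, he0, he1, he2, hC2⟩

theorem chain_lower {K : ℕ} (hK : 1 ≤ K) {c C r e : ℝ} {q : ℕ} (hC : 1 ≤ C)
    (hr : 1 / 2 < r) (hr1 : r < 1) (hq : 1 ≤ q)
    (hm : ∀ m ∈ Finset.range (K + 1), (m : ℝ) * LL - LL / 8 ≤ F (r * hh m))
    (he0 : 0 < e) (he1 : e < 1 / 4) (he : F e ≤ LL / 8)
    (hexp : Real.exp ((1 - hh (K + 1) / ((1 + hh (K + 1)) / 2)) /
      (1 + hh (K + 1) / ((1 + hh (K + 1)) / 2)) * (Real.log C⁻¹ / 2)) ≤ e)
    {T : ℝ} (hT : IsChain (Om K c C q) K (pt K r 0) (pt K r (K + 1)) T) : (K + 1) * LL < T := by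
  by_contra hcon
  push Not at hcon
  obtain ⟨p, f, a, b, hp0, hpK, hch, hTs⟩ := hT
  have hL := LL_pos
  have hC0 : 0 < C := by linarith
  set ρ : ℕ → ℝ := fun j => pd (a j) (b j) with hρ
  have hρ0 : ∀ j < K, 0 ≤ ρ j := fun j hj => pd_nonneg (hch j hj).1 (hch j hj).2.1
  have hρT : ∀ j < K, ρ j ≤ T := by
    intro j hj
    rw [hTs]
    exact Finset.single_le_sum (f := ρ) (fun i hi => hρ0 i (Finset.mem_range.1 hi))
      (Finset.mem_range.2 hj)
  -- points of the chain lie in the domain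
  have hmem : ∀ j < K, p j ∈ Om K c C q ∧ p (j + 1) ∈ Om K c C q := by
    intro j hj
    obtain ⟨h1, h2, h3, h4, h5, h6⟩ := hch j hj
    rw [← h5, ← h6]
    exact ⟨h4 (by simpa using h1), h4 (by simpa using h2)⟩
  have hmem' : ∀ j ≤ K, p j ∈ Om K c C q := by
    intro j hj
    rcases Nat.lt_or_ge j K with h | h
    · exact (hmem j h).1
    · have : j = (K - 1) + 1 := by omega
      rw [this]
      exact (hmem (K - 1) (by omega)).2
  -- contraction of the coordinates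
  have hcoord : ∀ j < K, ∀ l : Fin (K + K), pd (p j l) (p (j + 1) l) ≤ ρ j := by
    intro j hj l
    obtain ⟨h1, h2, h3, h4, h5, h6⟩ := hch j hj
    rw [← h5, ← h6]
    apply pd_le (g := fun ζ => f j ζ l)
    · exact (differentiableOn_euclidean.1 h3) l
    · intro ζ hζ
      have := norm_lt_of_mem hq (h4 hζ) l
      simpa using this
    · exact h1
    · exact h2
  have hdown : ∀ (l : Fin (K + K)) (s : ℕ), s ≤ K →
      F ‖p 0 l‖ - F ‖p s l‖ ≤ ∑ j ∈ Finset.range s, ρ j := by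
    intro l s
    induction s with
    | zero => intro _; simp
    | succ s ih =>
      intro hs
      have h1 := ih (by omega)
      have h2 := F_norm_sub_le (norm_lt_of_mem hq (hmem' s (by omega)) l)
        (norm_lt_of_mem hq (hmem' (s + 1) hs) l)
      have h3 := hcoord s (by omega) l
      rw [Finset.sum_range_succ]
      linarith
  have hup : ∀ (l : Fin (K + K)) (s : ℕ), s ≤ K →
      F ‖p K l‖ - F ‖p s l‖ ≤ T - ∑ j ∈ Finset.range s, ρ j := by
    intro l s hs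
    have key : ∀ k' : ℕ, s + k' ≤ K → F ‖p (s + k') l‖ - F ‖p s l‖ ≤
        ∑ j ∈ Finset.range (s + k'), ρ j - ∑ j ∈ Finset.range s, ρ j := by
      intro k'
      induction k' with
      | zero => intro _; simp
      | succ k' ih =>
        intro hk
        have h1 := ih (by omega)
        have h2 := F_norm_sub_le (norm_lt_of_mem hq (hmem' (s + (k' + 1)) (by omega)) l)
          (norm_lt_of_mem hq (hmem' (s + k') (by omega)) l)
        have h3 := hcoord (s + k') (by omega) l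
        rw [← add_assoc, Finset.sum_range_succ]
        rw [pd_comm] at h2
        rw [add_assoc] at h3 ⊢
        linarith
    rw [hTs]
    have h1 := key (K - s) (by omega)
    rwa [show s + (K - s) = K by omega] at h1
  -- dichotomy
  have hdich : ∀ j < K, ∀ i : Fin K,
      (‖p j (Fin.castAdd K i)‖ ≤ e ∧ ‖p (j + 1) (Fin.castAdd K i)‖ ≤ e) ∨
      (‖p j (Fin.natAdd K i)‖ ≤ e ∧ ‖p (j + 1) (Fin.natAdd K i)‖ ≤ e) := by
    intro j hj i
    obtain ⟨h1, h2, h3, h4, h5, h6⟩ := hch j hj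
    have ht1 := hh_lt (K + 1)
    have ht0 := hh_nonneg (K + 1)
    set t1 := hh (K + 1) with ht1def
    have hpm : pm (a j) (b j) ≤ t1 := by
      apply pm_le_of_pd_le h1 h2 ht0 ht1
      rw [ht1def, F_hh]
      push_cast
      have := hρT j hj
      simp only [hρ] at this
      linarith
    have haut : MapsTo (aut (a j)) (ball 0 1) (ball 0 1) := fun ζ hζ => by
      have : ‖ζ‖ < 1 := by simpa using hζ
      simpa using norm_aut_lt h1 this
    have hfd : ∀ l : Fin (K + K), DifferentiableOn ℂ (fun ζ => f j (aut (a j) ζ) l) (ball 0 1) := by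
      intro l
      exact ((differentiableOn_euclidean.1 h3) l).comp (differentiableOn_aut h1) haut
    have hin : ∀ ζ : ℂ, ‖ζ‖ < 1 → f j (aut (a j) ζ) ∈ Om K c C q := fun ζ hζ =>
      h4 (haut (by simpa using hζ))
    have hb' : ‖aut (-(a j)) (b j)‖ ≤ t1 := by rw [norm_aut_neg]; exact hpm
    have hR : (1 + t1) / 2 < 1 := by linarith
    have htR : t1 / ((1 + t1) / 2) * ((1 + t1) / 2) = t1 := by
      apply div_mul_cancel₀; positivity
    have htlt : t1 / ((1 + t1) / 2) < 1 := by rw [div_lt_one (by linarith)]; linarith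
    have hcr := cross (x := fun ζ => f j (aut (a j) ζ) (Fin.castAdd K i))
      (y := fun ζ => f j (aut (a j) ζ) (Fin.natAdd K i)) (hfd _) (hfd _) (ε := C⁻¹)
      (by positivity) (inv_le_one_of_one_le₀ hC)
      (fun ζ hζ => (norm_lt_of_mem hq (hin ζ hζ) _).le)
      (fun ζ hζ => (norm_lt_of_mem hq (hin ζ hζ) _).le)
      (fun ζ hζ => mul_le_of_mem hC0 (hin ζ hζ) i)
      (R := (1 + t1) / 2) (t := t1 / ((1 + t1) / 2)) (by linarith) hR
      (by positivity) htlt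
    have e0 : f j (aut (a j) 0) = p j := by rw [aut_zero]; exact h5
    have e1 : f j (aut (a j) (aut (-(a j)) (b j))) = p (j + 1) := by rw [aut_inv h1 h2]; exact h6
    rcases hcr with h | h
    · left
      have k0 := (h 0 (by rw [norm_zero, htR]; exact ht0)).trans hexp
      have k1 := (h (aut (-(a j)) (b j)) (by rw [htR]; exact hb')).trans hexp
      rw [e0] at k0
      rw [e1] at k1
      exact ⟨k0, k1⟩
    · right
      have k0 := (h 0 (by rw [norm_zero, htR]; exact ht0)).trans hexp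
      have k1 := (h (aut (-(a j)) (b j)) (by rw [htR]; exact hb')).trans hexp
      rw [e0] at k0
      rw [e1] at k1
      exact ⟨k0, k1⟩
  -- the end points
  have hX0 : ∀ i : Fin K, p 0 (Fin.castAdd K i) = ((r * hh (i + 1) : ℝ) : ℂ) := by
    intro i
    rw [hp0, pt_X, if_pos (Nat.zero_le _), Nat.sub_zero]
  have hYK : ∀ i : Fin K, p K (Fin.natAdd K i) = ((r * hh (K - i) : ℝ) : ℂ) := by
    intro i
    rw [hpK, pt_Y, if_neg (by omega), Nat.add_sub_add_right]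
  have hnX0 : ∀ i : Fin K, ‖p 0 (Fin.castAdd K i)‖ = r * hh (i + 1) := by
    intro i
    rw [hX0, Complex.norm_real, Real.norm_of_nonneg]
    exact mul_nonneg (by linarith) (hh_nonneg _)
  have hnYK : ∀ i : Fin K, ‖p K (Fin.natAdd K i)‖ = r * hh (K - i) := by
    intro i
    rw [hYK, Complex.norm_real, Real.norm_of_nonneg]
    exact mul_nonneg (by linarith) (hh_nonneg _)
  have hbig : ∀ m : ℕ, 1 ≤ m → e < r * hh m := by
    intro m hm1
    have h1 := hh_mono hm1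
    rw [hh_one] at h1
    nlinarith
  -- a junction where both coordinates are small
  have hjun : ∀ i : Fin K, ∃ s, 1 ≤ s ∧ s ≤ K - 1 ∧ ‖p s (Fin.castAdd K i)‖ ≤ e ∧
      ‖p s (Fin.natAdd K i)‖ ≤ e := by
    intro i
    by_contra hno
    push Not at hno
    have hall : ∀ j < K, ‖p (j + 1) (Fin.natAdd K i)‖ ≤ e := by
      intro j
      induction j with
      | zero =>
        intro hj
        rcases hdich 0 hj i with h | h
        · exfalso
          have h1 := h.1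
          rw [hnX0] at h1
          have := hbig (i + 1) (by omega)
          linarith
        · exact h.2
      | succ j ih =>
        intro hj
        have h1 := ih (by omega)
        rcases hdich (j + 1) hj i with h | h
        · exfalso
          have := hno (j + 1) (by omega) (by omega) h.1
          linarith
        · exact h.2
    have h1 := hall (K - 1) (by omega)
    rw [Nat.sub_add_cancel hK, hnYK] at h1
    have := hbig (K - i) (by omega)
    linarith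
  choose s hs1 hs2 hsX hsY using hjun
  -- pigeonhole
  obtain ⟨i, _, i', _, hne, heq⟩ := Finset.exists_ne_map_eq_of_card_lt_of_maps_to
    (s := (Finset.univ : Finset (Fin K))) (t := Finset.Icc 1 (K - 1))
    (by rw [Finset.card_univ, Fintype.card_fin, Nat.card_Icc]; omega) (f := s)
    (fun i _ => by simpa using ⟨hs1 i, hs2 i⟩)
  have hest : ∀ i : Fin K, ((i : ℝ) + 1) * LL - LL / 4 ≤ ∑ j ∈ Finset.range (s i), ρ j ∧
      ∑ j ∈ Finset.range (s i), ρ j ≤ ((i : ℝ) + 1) * LL + LL / 4 := by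
    intro i
    have hsK : s i ≤ K := (hs2 i).trans (by omega)
    have h1 := hdown (Fin.castAdd K i) (s i) hsK
    have h2 := hup (Fin.natAdd K i) (s i) hsK
    rw [hnX0] at h1
    rw [hnYK] at h2
    have h3 := hm (i + 1) (Finset.mem_range.2 (by omega))
    have h4 := hm (K - i) (Finset.mem_range.2 (by omega))
    have h5 : F ‖p (s i) (Fin.castAdd K i)‖ ≤ LL / 8 :=
      (F_mono (norm_nonneg _) (hsX i) (by linarith)).trans he
    have h6 : F ‖p (s i) (Fin.natAdd K i)‖ ≤ LL / 8 :=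
      (F_mono (norm_nonneg _) (hsY i) (by linarith)).trans he
    rw [Nat.cast_sub (by omega)] at h4
    push_cast at h3
    constructor
    · linarith
    · nlinarith
  have h1 := hest i
  have h2 := hest i'
  rw [heq] at h1
  have h3 : ((i : ℕ) : ℝ) * LL ≤ ((i' : ℕ) : ℝ) * LL + LL / 2 := by linarith [h1.1, h2.2]
  have h4 : ((i' : ℕ) : ℝ) * LL ≤ ((i : ℕ) : ℝ) * LL + LL / 2 := by linarith [h1.2, h2.1]
  apply hne
  apply Fin.ext
  by_contra hcon2
  rcases Nat.lt_or_gt_of_ne hcon2 with h | h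
  · have h5 : ((i : ℕ) : ℝ) + 1 ≤ ((i' : ℕ) : ℝ) := by exact_mod_cast h
    nlinarith
  · have h5 : ((i' : ℕ) : ℝ) + 1 ≤ ((i : ℕ) : ℝ) := by exact_mod_cast h
    nlinarith

theorem main (K : ℕ) (hK : 1 ≤ K) : ∃ (n : ℕ) (Ω : Set (Cn n)) (z w : Cn n),
    IsStronglyPseudoconvex Ω ∧ z ∈ Ω ∧ w ∈ Ω ∧ z ≠ w ∧
    ∃ R : ℝ, IsChain Ω (K + 1) z w R ∧ ∀ s : ℝ, IsChain Ω K z w s → R < s := by
  obtain ⟨c, C, r, e, q, hc, hC, hr, hr1, hq, hpar, hm, he0, he1, he, hexp⟩ := exists_par K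
  have hup := chain_upper (K := K) (C := C) (by linarith) hr1.le hpar
  refine ⟨K + K, Om K c C q, pt K r 0, pt K r (K + 1), isSpc_Om K hc hq, ?_, ?_, ?_,
    (K + 1) * LL, hup, fun s hs => chain_lower hK hC hr hr1 hq hm he0 he1 he hexp hs⟩
  · rw [← ds_zero]
    exact ds_mem (by linarith) hr1.le hpar 0 (by simp)
  · rw [← ds_zero]
    exact ds_mem (by linarith) hr1.le hpar (K + 1) (by simp)
  · intro h
    have h1 := congrArg (fun v : Cn (K + K) => v (Fin.castAdd K ⟨0, hK⟩)) h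
    simp only [pt_X] at h1
    rw [if_pos (by simp), if_neg (by simp)] at h1
    have h2 : r * hh (0 + 1 - 0) = 0 := by exact_mod_cast h1
    rw [show 0 + 1 - 0 = 1 from rfl, hh_one] at h2
    linarith

end Q72.KCh
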